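import Mathlib

set_option autoImplicit false

namespace Pool.Agent.Results.MP_72bf7f_co.Zero

open Finset Filter Classical

/-- Schein rank: the least `k` such that `A` is the Boolean sum of `k` matrices `u v^T`. -/
noncomputable def rank {n : ℕ} (A : Fin n → Fin n → Bool) : ℕ :=
  sInf {k | ∃ u v : Fin k → Fin n → Bool, ∀ i j, A i j = true ↔ ∃ t, u t i = true ∧ v t j = true}

/-- Probability that a uniformly random `n × n` Boolean matrix has Schein rank less than `n`. -/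
noncomputable def p (n : ℕ) : ℝ := (#{A : Fin n → Fin n → Bool | rank A < n} : ℝ) / 2 ^ (n ^ 2)

theorem cyl {ι : Type} [Fintype ι] (P : Finset ι) (B : ι → Prop) (s : Finset (ι → Bool))
    (hs : ∀ c, c ∈ s ↔ ∀ x ∈ P, (c x = true ↔ B x)) : (#s : ℝ) * 2 ^ #P = 2 ^ Fintype.card ι := by
  have : s = Fintype.piFinset fun x => if x ∈ P then {decide (B x)} else univ := by
    ext c
    simp only [hs, Fintype.mem_piFinset]
    refine forall_congr' fun x => ?_
    by_cases h : x ∈ P <;> by_cases h' : B x <;> simp [h, h']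
  rw [this, Fintype.card_piFinset]
  simp only [apply_ite card, card_singleton, card_univ, Fintype.card_bool, prod_ite, prod_const_one,
    prod_const, one_mul]
  rw [Nat.cast_pow, Nat.cast_ofNat, ← pow_add, ← card_compl_add_card P]
  congr 3
  ext; simp

theorem cyl2 {n : ℕ} (S T : Finset (Fin n)) (B : Fin n → Fin n → Prop)
    (s : Finset (Fin n → Fin n → Bool)) (hs : ∀ A, A ∈ s ↔ ∀ i ∈ S, ∀ j ∈ T, (A i j = true ↔ B i j)) :
    (#s : ℝ) * 2 ^ (#S * #T) = 2 ^ (n ^ 2) := by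
  have := cyl (S ×ˢ T) (fun x => B x.1 x.2) (s.map (Equiv.curry _ _ _).symm.toEmbedding) fun c => by
    simp only [mem_map_equiv, hs, mem_product, Prod.forall]
    exact ⟨fun h i j a => h i a.1 j a.2, fun h i a j b => h i j ⟨a, b⟩⟩
  rwa [card_product, Fintype.card_prod, Fintype.card_fin, ← sq, card_map] at this

def Sm (n c : ℕ) : Finset (Finset (Fin n)) := {T | c * #T ≤ n}

theorem sm_le (n c : ℕ) (y z : ℝ) (hy : 1 ≤ y) (hz : y * ((y ^ c)⁻¹ + 1) ≤ z) :
    (#(Sm n c) : ℝ) ≤ z ^ n := by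
  refine le_trans ?_ (pow_le_pow_left₀ (by positivity) hz n)
  have := sum_pow_mul_eq_add_pow (y ^ c)⁻¹ 1 (univ : Finset (Fin n))
  rw [card_univ, Fintype.card_fin, powerset_univ] at this
  rw [mul_pow, ← this, mul_sum, Sm, ← sum_boole]
  refine sum_le_sum fun T _ => ?_
  split_ifs with h
  · rw [one_pow, mul_one, inv_pow, ← pow_mul, ← div_eq_mul_inv, one_le_div (by positivity)]
    exact pow_le_pow_right₀ hy h
  · positivity

theorem sm3 (n : ℕ) : (#(Sm n 3) : ℝ) ≤ 1.89 ^ n := sm_le n 3 (5 / 4) _ (by norm_num) (by norm_num)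

theorem sm200 (n : ℕ) : (#(Sm n 200) : ℝ) ≤ 1.033 ^ n :=
  sm_le n 200 (41 / 40) _ (by norm_num) (by norm_num)

theorem pair {n : ℕ} (i i' : Fin n) (h : i ≠ i') :
    (#{A : Fin n → Fin n → Bool | n < 3 * #{j | A j i = true ∧ A j i' = true}} : ℝ) ≤
      0.991 ^ n * 2 ^ (n ^ 2) := by
  have h1 := cyl {i, i'} (fun _ => True) {c | c i = true ∧ c i' = true} (by simp)
  rw [card_pair h, Fintype.card_fin] at h1
  let w : (Fin n → Bool) → ℝ := fun c => if c i = true ∧ c i' = true then (5 / 4) ^ 3 else 1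
  have h2 : ∑ c, w c ≤ 0.991 * (5 / 4) * 2 ^ n := by
    have : ∀ c, w c = 1 + 61 / 64 * if c i = true ∧ c i' = true then 1 else 0 := by
      intro c; simp only [w]; split_ifs <;> norm_num
    simp only [this, sum_add_distrib, ← mul_sum, sum_boole]
    simp only [sum_const, card_univ, Fintype.card_fun, Fintype.card_bool, Fintype.card_fin,
      nsmul_eq_mul]
    push_cast
    have : (0 : ℝ) < 2 ^ n := by positivity
    linarith
  have h3 := pow_le_pow_left₀ (sum_nonneg fun c _ => by simp only [w]; positivity) h2 n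
  rw [Fintype.sum_pow, mul_pow, mul_pow, ← pow_mul, ← sq, mul_right_comm] at h3
  refine le_of_mul_le_mul_right (le_trans ?_ h3) (by positivity)
  rw [← sum_boole, sum_mul]
  refine sum_le_sum fun A _ => ?_
  simp only [w, prod_ite, prod_const, one_pow, mul_one, ← pow_mul]
  split_ifs with h
  · rw [one_mul]; exact pow_le_pow_right₀ (by norm_num) h.le
  · rw [zero_mul]; positivity

def G (n : ℕ) : Finset (Finset (Fin n) × Finset (Fin n)) :=
  Sm n 200 ×ˢ Sm n 3 ∪ Sm n 3 ×ˢ Sm n 200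

theorem G_le (n : ℕ) (hn : 100 ≤ n) : (#(G n) : ℝ) ≤ 0.99 ^ n * 2 ^ n := by
  have h1 : (#(G n) : ℝ) ≤ #(Sm n 200) * #(Sm n 3) + #(Sm n 3) * #(Sm n 200) := by
    exact_mod_cast (card_union_le _ _).trans (by rw [card_product, card_product])
  have h2 := mul_le_mul (sm200 n) (sm3 n) (by positivity) (by positivity)
  have h3 : (2 : ℝ) ≤ 1.01 ^ n := le_trans (by norm_num) (pow_le_pow_right₀ (by norm_num) hn)
  have h4 : (1.01 : ℝ) ^ n * (1.033 ^ n * 1.89 ^ n) ≤ 0.99 ^ n * 2 ^ n := by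
    rw [← mul_pow, ← mul_pow, ← mul_pow]; exact pow_le_pow_left₀ (by norm_num) (by norm_num) n
  have h5 : (0 : ℝ) ≤ 1.033 ^ n * 1.89 ^ n := by positivity
  nlinarith

def N {n : ℕ} (U V : Finset (Fin n)) : Finset (Fin n → Fin n → Bool) :=
  {A | ∃ M ⊆ G n, #U + #V + #M < n ∧
    ∀ i ∈ Uᶜ, ∀ j ∈ Vᶜ, (A i j = true ↔ ∃ R ∈ M, i ∈ R.1 ∧ j ∈ R.2)}

theorem N_le {n : ℕ} (hn : 100 ≤ n) (U V : Finset (Fin n)) (m : ℕ) (h : #U + #V + m + 1 = n) :
    (#(N U V) : ℝ) * 2 ^ (#U * #V) ≤ (0.99 ^ m) ^ n * (n * (1 / 2) ^ n * 2 ^ (n ^ 2)) := by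
  have h1 : N U V ⊆ (range (m + 1)).biUnion fun s => (powersetCard s (G n)).biUnion fun M =>
      {A | ∀ i ∈ Uᶜ, ∀ j ∈ Vᶜ, (A i j = true ↔ ∃ R ∈ M, i ∈ R.1 ∧ j ∈ R.2)} := by
    intro A
    simp only [N, mem_filter, mem_univ, true_and, mem_biUnion, mem_range, mem_powersetCard]
    rintro ⟨M, a, b, c⟩
    exact ⟨#M, by omega, M, ⟨a, rfl⟩, c⟩
  have h2 : #Uᶜ * #Vᶜ = n * m + n + #U * #V := by
    have a := card_compl_add_card U
    have b := card_compl_add_card V
    rw [Fintype.card_fin] at a b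
    rw [show #Uᶜ = #V + m + 1 by omega, show #Vᶜ = #U + m + 1 by omega]
    generalize #U = u at *
    generalize #V = v at *
    rw [← h]
    ring
  have h3 : 1 ≤ #(G n) := card_pos.mpr ⟨(∅, ∅), by simp [G, Sm]⟩
  have h4 : (#(N U V) : ℝ) * 2 ^ (#Uᶜ * #Vᶜ) ≤ n * (#(G n) ^ m * 2 ^ (n ^ 2)) := by
    have := (card_le_card h1).trans (card_biUnion_le.trans (sum_le_sum fun s _ => card_biUnion_le))
    refine (mul_le_mul_of_nonneg_right (Nat.cast_le.mpr this) (by positivity)).trans ?_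
    push_cast
    simp only [sum_mul]
    refine (sum_le_card_nsmul _ _ (#(G n) ^ m * 2 ^ (n ^ 2) : ℝ) fun s hs => ?_).trans ?_
    · rw [sum_congr rfl fun M _ => cyl2 _ _ (fun i j => ∃ R ∈ M, i ∈ R.1 ∧ j ∈ R.2) _ (by simp),
        sum_const, card_powersetCard, nsmul_eq_mul]
      gcongr
      exact_mod_cast (Nat.choose_le_pow _ _).trans
        (Nat.pow_le_pow_right h3 (Nat.lt_succ_iff.mp (mem_range.mp hs)))
    · rw [card_range, nsmul_eq_mul]
      gcongr
      omega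
  have h5 := pow_le_pow_left₀ (by positivity) (G_le n hn) m
  refine le_of_mul_le_mul_right ?_ (show (0 : ℝ) < 2 ^ (n * m + n) by positivity)
  rw [mul_assoc, ← pow_add, add_comm (#U * #V), ← h2]
  refine h4.trans ((mul_le_mul_of_nonneg_left (mul_le_mul_of_nonneg_right h5 (by positivity))
    (by positivity)).trans_eq ?_)
  rw [pow_add, pow_mul, mul_pow, pow_right_comm 0.99 n m, one_div, inv_pow]
  field_simp

theorem N_le2 {n : ℕ} (hn : 30000 ≤ n) (U V : Finset (Fin n)) :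
    (#(N U V) : ℝ) ≤ ((1 / 4) ^ n + (if U ∈ Sm n 200 ∧ Vᶜ ∈ Sm n 200 then 1 else 0) +
      (if Uᶜ ∈ Sm n 200 ∧ V ∈ Sm n 200 then 1 else 0)) * (n * (1 / 2) ^ n * 2 ^ (n ^ 2)) := by
  by_cases h : #U + #V < n
  swap
  · rw [N, filter_eq_empty_iff.mpr, card_empty, Nat.cast_zero]
    · positivity
    · rintro A _ ⟨M, _, b, _⟩
      omega
  obtain ⟨m, hm⟩ := Nat.exists_eq_add_of_lt h
  have h1 := N_le (by omega) U V m hm.symm
  have a := card_compl_add_card U
  have b := card_compl_add_card V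
  rw [Fintype.card_fin] at a b
  rw [← le_div_iff₀ (by positivity), mul_div_right_comm] at h1
  refine h1.trans (mul_le_mul_of_nonneg_right ?_ (by positivity))
  have p1 : ((0.99 : ℝ) ^ m) ^ n ≤ 1 := pow_le_one₀ (by positivity) (pow_le_one₀ (by norm_num) (by norm_num))
  have p2 : (1 : ℝ) ≤ 2 ^ (#U * #V) := one_le_pow₀ (by norm_num)
  have p3 : ((0.99 : ℝ) ^ m) ^ n / 2 ^ (#U * #V) ≤ 1 := div_le_one_of_le₀ (p1.trans p2) (by positivity)
  have p4 : (0 : ℝ) ≤ (1 / 4) ^ n := by positivity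
  simp only [Sm, mem_filter, mem_univ, true_and]
  split_ifs with c1 c2 c2
  any_goals linarith
  rw [add_zero, add_zero]
  by_cases hm2 : 140 ≤ m
  · refine (div_le_self (by positivity) p2).trans (pow_le_pow_left₀ (by positivity) ?_ n)
    exact (pow_le_pow_of_le_one (by norm_num) (by norm_num) hm2).trans (by norm_num)
  · have : 2 * n ≤ #U * #V := by
      rcases le_total #U #V with e | e
      · have : 5 ≤ #U := by omega
        nlinarith
      · have : 5 ≤ #V := by omega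
        nlinarith
    rw [one_div, inv_pow, show (4 : ℝ) ^ n = 2 ^ (2 * n) by rw [pow_mul]; norm_num, ← one_div]
    gcongr
    norm_num

theorem cover {n : ℕ} (A : Fin n → Fin n → Bool) (h : rank A < n)
    (h1 : ∀ S T : Finset (Fin n), (∀ i ∈ S, ∀ j ∈ T, A i j = true) → S ∈ Sm n 200 ∨ T ∈ Sm n 200)
    (h2 : ∀ i i', i ≠ i' → 3 * #{j | A j i = true ∧ A j i' = true} ≤ n)
    (h3 : ∀ i i', i ≠ i' → 3 * #{j | A i j = true ∧ A i' j = true} ≤ n) : ∃ U V, A ∈ N U V := by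
  obtain ⟨u, v, e⟩ : rank A ∈ _ := Nat.sInf_mem (s := {k | ∃ u v : Fin k → Fin n → Bool,
    ∀ i j, A i j = true ↔ ∃ t, u t i = true ∧ v t j = true})
    ⟨n, fun t i => decide (t = i), A, by simp⟩
  generalize rank A = k at *
  let S : Fin k → Finset (Fin n) := fun t => {i | u t i = true}
  let T : Fin k → Finset (Fin n) := fun t => {i | v t i = true}
  have e1 : ∀ t, ∀ i ∈ S t, ∀ j ∈ T t, A i j = true := fun t i a j b =>
    (e i j).mpr ⟨t, (mem_filter.mp a).2, (mem_filter.mp b).2⟩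
  let X : Finset (Fin k) := {t | #(S t) ≤ 1}
  let Y : Finset (Fin k) := {t ∈ Xᶜ | #(T t) ≤ 1}
  let Z : Finset (Fin k) := {t ∈ Xᶜ | ¬ #(T t) ≤ 1}
  refine ⟨X.biUnion S, Y.biUnion T, mem_filter.mpr ⟨mem_univ _, Z.image fun t => (S t, T t),
    image_subset_iff.mpr fun t ht => ?_, ?_, fun i hi j hj => ?_⟩⟩
  · simp only [Z, X, mem_filter, mem_compl, mem_univ, true_and, not_le] at ht
    obtain ⟨a, a1, b, b1, ab⟩ := one_lt_card.mp ht.1
    obtain ⟨c, c1, d, d1, cd⟩ := one_lt_card.mp ht.2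
    have s3 : S t ∈ Sm n 3 := mem_filter.mpr ⟨mem_univ _, (Nat.mul_le_mul_left _ (card_le_card
      fun i hi => mem_filter.mpr ⟨mem_univ _, e1 t i hi c c1, e1 t i hi d d1⟩)).trans (h2 c d cd)⟩
    have t3 : T t ∈ Sm n 3 := mem_filter.mpr ⟨mem_univ _, (Nat.mul_le_mul_left _ (card_le_card
      fun i hi => mem_filter.mpr ⟨mem_univ _, e1 t a a1 i hi, e1 t b b1 i hi⟩)).trans (h3 a b ab)⟩
    rcases h1 _ _ (e1 t) with h | h <;> simp [G, h, s3, t3]
  · have a1 : #(X.biUnion S) ≤ #X * 1 := card_biUnion_le_card_mul _ _ _ fun t ht => (mem_filter.mp ht).2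
    have a2 : #(Y.biUnion T) ≤ #Y * 1 := card_biUnion_le_card_mul _ _ _ fun t ht => (mem_filter.mp ht).2
    have a3 : #(Z.image fun t => (S t, T t)) ≤ #Z := card_image_le
    have a4 : #Y + #Z = #Xᶜ := card_filter_add_card_filter_not _
    have a5 := card_compl_add_card X
    rw [Fintype.card_fin] at a5
    omega
  · simp only [mem_compl, mem_biUnion, not_exists, not_and, exists_mem_image] at hi hj ⊢
    refine ⟨fun a => ?_, fun ⟨t, _, a, b⟩ => e1 t i a j b⟩
    obtain ⟨t, a, b⟩ := (e i j).mp a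
    have a' : i ∈ S t := mem_filter.mpr ⟨mem_univ _, a⟩
    have b' : j ∈ T t := mem_filter.mpr ⟨mem_univ _, b⟩
    have : t ∈ Xᶜ := mem_compl.mpr fun c => hi t c a'
    exact ⟨t, mem_filter.mpr ⟨this, fun c => hj t (mem_filter.mpr ⟨this, c⟩) b'⟩, a', b'⟩

theorem sum_le' {α β : Type} [Fintype α] [DecidableEq β] (f : α → Finset β) (c : α → ℝ) (h : ∀ a, #(f a) ≤ c a) :
    (#(univ.biUnion f) : ℝ) ≤ ∑ a, c a :=
  (Nat.cast_le.mpr card_biUnion_le).trans (by push_cast; exact sum_le_sum fun a _ => h a)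

theorem bound (n : ℕ) (hn : 120000 ≤ n) :
    p n ≤ (1 / 2) ^ n + 2 * (n ^ 2 * 0.991 ^ n) + 3 * (n ^ 1 * 0.6 ^ n) := by
  rw [p, div_le_iff₀ (by positivity)]
  let B1 : Finset (Fin n) × Finset (Fin n) → Finset (Fin n → Fin n → Bool) := fun x =>
    {A | (∀ i ∈ x.1, ∀ j ∈ x.2, A i j = true) ∧ x.1 ∉ Sm n 200 ∧ x.2 ∉ Sm n 200}
  let B2 : Fin n × Fin n → Finset (Fin n → Fin n → Bool) := fun x =>
    {A | x.1 ≠ x.2 ∧ n < 3 * #{j | A j x.1 = true ∧ A j x.2 = true}}
  let B3 : Fin n × Fin n → Finset (Fin n → Fin n → Bool) := fun x =>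
    {A | x.1 ≠ x.2 ∧ n < 3 * #{j | A x.1 j = true ∧ A x.2 j = true}}
  have h0 : ({A : Fin n → Fin n → Bool | rank A < n} : Finset _) ⊆ univ.biUnion B1 ∪
      univ.biUnion B2 ∪ univ.biUnion B3 ∪
      univ.biUnion fun x : Finset (Fin n) × Finset (Fin n) => N x.1 x.2 := by
    intro A hA
    by_contra hc
    simp only [mem_union, mem_biUnion, mem_univ, true_and, not_or, not_exists, B1, B2, B3,
      mem_filter, Prod.forall, not_and, not_lt, not_not] at hc hA
    obtain ⟨U, V, h⟩ := cover A hA (fun S T a => by have := hc.1.1.1 S T a; tauto) hc.1.1.2 hc.1.2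
    exact hc.2 U V h
  have h1 := sum_le' B1 (fun _ => (1 / 8) ^ n * 2 ^ (n ^ 2)) fun x => by
    by_cases c : x.1 ∉ Sm n 200 ∧ x.2 ∉ Sm n 200
    · have a := cyl2 x.1 x.2 (fun _ _ => True) (B1 x) (by simp [B1, c])
      simp only [Sm, mem_filter, mem_univ, true_and, not_le] at c
      have b : 3 * n ≤ #x.1 * #x.2 := by nlinarith [c.1, c.2, show 600 ≤ #x.1 by omega]
      rw [← a, one_div, inv_pow, show (8 : ℝ) ^ n = 2 ^ (3 * n) by rw [pow_mul]; norm_num,
        le_inv_mul_iff₀ (by positivity), mul_comm]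
      gcongr
      norm_num
    · rw [show B1 x = ∅ from filter_eq_empty_iff.mpr (by tauto), card_empty, Nat.cast_zero]
      positivity
  have k2 : ∀ x, (#(B2 x) : ℝ) ≤ 0.991 ^ n * 2 ^ (n ^ 2) := fun x => by
    by_cases c : x.1 = x.2
    · rw [show B2 x = ∅ from filter_eq_empty_iff.mpr (by tauto), card_empty, Nat.cast_zero]
      positivity
    · simpa [B2, c] using pair x.1 x.2 c
  have h2 := sum_le' B2 _ k2
  have h3 := sum_le' B3 _ fun x => (Nat.cast_le.mpr (card_le_card_of_injOn (t := B2 x)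
    Function.swap (fun A => by simp [B2, B3]) fun A _ B _ h => congrArg Function.swap h)).trans (k2 x)
  have h4 := sum_le' (fun x : Finset (Fin n) × Finset (Fin n) => N x.1 x.2) _ fun x =>
    N_le2 (by omega) x.1 x.2
  have s1 : ∀ f g : Finset (Fin n) ≃ Finset (Fin n), ∑ x : Finset (Fin n) × Finset (Fin n),
      (if f x.1 ∈ Sm n 200 ∧ g x.2 ∈ Sm n 200 then (1 : ℝ) else 0) ≤ 1.2 ^ n := by
    intro f g
    refine (Equiv.sum_comp (f.prodCongr g)
      fun x => if x.1 ∈ Sm n 200 ∧ x.2 ∈ Sm n 200 then (1 : ℝ) else 0).trans_le ?_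
    simp only [← mem_product, sum_boole, filter_mem_eq_inter, univ_inter, card_product]
    push_cast
    refine (mul_le_mul (sm200 n) (sm200 n) (by positivity) (by positivity)).trans ?_
    rw [← mul_pow]; exact pow_le_pow_left₀ (by norm_num) (by norm_num) n
  have s2 : ∑ x : Finset (Fin n) × Finset (Fin n), (if x.1 ∈ Sm n 200 ∧ x.2ᶜ ∈ Sm n 200
    then (1 : ℝ) else 0) ≤ 1.2 ^ n := s1 (.refl _) (compl_involutive.toPerm _)
  have s3 : ∑ x : Finset (Fin n) × Finset (Fin n), (if x.1ᶜ ∈ Sm n 200 ∧ x.2 ∈ Sm n 200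
    then (1 : ℝ) else 0) ≤ 1.2 ^ n := s1 (compl_involutive.toPerm _) (.refl _)
  rw [← sum_mul, sum_add_distrib, sum_add_distrib] at h4
  simp only [sum_const, card_univ, Fintype.card_prod, Fintype.card_finset, Fintype.card_fin,
    nsmul_eq_mul, Nat.cast_mul, Nat.cast_pow, Nat.cast_ofNat, ← mul_assoc, ← mul_pow] at h1 h2 h3 h4
  have s4 : (1 : ℝ) ≤ 1.2 ^ n := one_le_pow₀ (by norm_num)
  have s5 : (1.2 : ℝ) ^ n * (1 / 2) ^ n = 0.6 ^ n := by rw [← mul_pow]; norm_num
  have h5 := (card_le_card h0).trans ((card_union_le _ _).trans (Nat.add_le_add_right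
    ((card_union_le _ _).trans (Nat.add_le_add_right (card_union_le _ _) _)) _))
  rw [show (2 * 2 * (1 / 4) : ℝ) = 1 by norm_num, one_pow] at h4
  rw [show (2 * 2 * (1 / 8) : ℝ) = 1 / 2 by norm_num] at h1
  have h6 := h4.trans (mul_le_mul_of_nonneg_right (mul_le_mul_of_nonneg_right
    (mul_le_mul_of_nonneg_right (show _ ≤ 3 * (1.2 : ℝ) ^ n by linarith) (by positivity))
    (by positivity)) (by positivity))
  refine (Nat.cast_le.mpr h5).trans ?_
  push_cast
  rw [← s5]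
  linarith

theorem result : Tendsto p atTop (nhds 0) := by
  refine squeeze_zero' (.of_forall fun n => by unfold p; positivity)
    (eventually_atTop.mpr ⟨_, bound⟩) ?_
  have a := tendsto_pow_atTop_nhds_zero_of_lt_one (r := (1 / 2 : ℝ)) (by norm_num) (by norm_num)
  have b := tendsto_pow_const_mul_const_pow_of_abs_lt_one 2 (r := 0.991) (by norm_num [abs_lt])
  have c := tendsto_pow_const_mul_const_pow_of_abs_lt_one 1 (r := 0.6) (by norm_num [abs_lt])
  simpa using (a.add (b.const_mul 2)).add (c.const_mul 3)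

end Pool.Agent.Results.MP_72bf7f_co.Zero
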